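import Pool.Agent.helper64.PB.SpecB

set_option autoImplicit false

namespace Pool.Agent.PB

lemma NMI_gate (G : Set Gate) (g : Gate) (hg : g ∈ G) : InCl G g.2 := by
  refine ⟨1, [fun x => g.2 fun i => (fun (i : Fin g.1) (x : Fin g.1 → Bool) => x i) i x],
    Prog.step [] g (fun i x => x i) Prog.nil hg (fun i => Or.inr ⟨i, rfl⟩), le_refl _, Or.inl ?_⟩
  simp

lemma NMI_c3 (hCLP : CLP_stmt) (G : Set Gate) (n : ℕ) (g : BF 3) (hg : InCl G g) (u v w : BF n)
    (hu : InCl G u) (hv : InCl G v) (hw : InCl G w) : InCl G (fun x => g ![u x, v x, w x]) := by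
  have h := hCLP.2 G 3 n g ![u, v, w] hg (by
    intro i
    fin_cases i
    · exact hu
    · exact hv
    · exact hw)
  have e : (fun x => g fun i => (![u, v, w] : Fin 3 → BF n) i x) = fun x => g ![u x, v x, w x] := by
    funext x
    congr 1
    funext i
    fin_cases i <;> rfl
  rwa [e] at h

lemma NMI_c2 (hCLP : CLP_stmt) (G : Set Gate) (n : ℕ) (g : BF 2) (hg : InCl G g) (u v : BF n)
    (hu : InCl G u) (hv : InCl G v) : InCl G (fun x => g ![u x, v x]) := by
  have h := hCLP.2 G 2 n g ![u, v] hg (by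
    intro i
    fin_cases i
    · exact hu
    · exact hv)
  have e : (fun x => g fun i => (![u, v] : Fin 2 → BF n) i x) = fun x => g ![u x, v x] := by
    funext x
    congr 1
    funext i
    fin_cases i <;> rfl
  rwa [e] at h

/-- finish from `x and not z` -/
lemma NMI_diff (hCLP : CLP_stmt) (G : Set Gate) (h : InCl G (fun x : Fin 2 → Bool => x 0 && !(x 1))) :
    InCl G fAnd ∧ InCl G fM := by
  have v2 : ∀ j : Fin 2, InCl G (fun x : Fin 2 → Bool => x j) := fun j => hCLP.1 G 2 j
  have v3 : ∀ j : Fin 3, InCl G (fun x : Fin 3 → Bool => x j) := fun j => hCLP.1 G 3 j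
  constructor
  · have h2 := NMI_c2 hCLP G 2 _ h (fun x => x 0) (fun x => x 0 && !(x 1)) (v2 0) h
    have e : (fun x : Fin 2 → Bool => (fun x : Fin 2 → Bool => x 0 && !(x 1))
        ![x 0, x 0 && !(x 1)]) = fAnd := by
      funext x
      simp only [fAnd, Matrix.cons_val_zero, Matrix.cons_val_one]
      cases x 0 <;> cases x 1 <;> rfl
    rw [← e]
    exact h2
  · have h1 := NMI_c2 hCLP G 3 _ h (fun x => x 2) (fun x => x 1) (v3 2) (v3 1)
    have h2 := NMI_c2 hCLP G 3 _ h (fun x => x 0) _ (v3 0) h1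
    have e : (fun x : Fin 3 → Bool => (fun x : Fin 2 → Bool => x 0 && !(x 1))
        ![x 0, (fun x : Fin 2 → Bool => x 0 && !(x 1)) ![x 2, x 1]]) = fM := by
      funext x
      simp only [fM, Matrix.cons_val_zero, Matrix.cons_val_one]
      cases x 0 <;> cases x 1 <;> cases x 2 <;> rfl
    rw [← e]
    exact h2

theorem NMI (hNMM : NMM_stmt) (hCLP : CLP_stmt) (hPRP : PRP_stmt) : NMI_stmt := by
  intro G hI hN
  obtain ⟨g0, hg0, hmon⟩ := hN
  obtain ⟨σ, hσ1, hσ2⟩ := hNMM g0.1 g0.2 hmon
  let g : BF 3 := fun x => g0.2 (fun i => x (σ i))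
  have hg : InCl G g := hCLP.2 G g0.1 3 g0.2 (fun i x => x (σ i)) (NMI_gate G g0 hg0)
    (fun i => hCLP.1 G 3 (σ i))
  have v2 : ∀ j : Fin 2, InCl G (fun x : Fin 2 → Bool => x j) := fun j => hCLP.1 G 2 j
  have v3 : ∀ j : Fin 3, InCl G (fun x : Fin 3 → Bool => x j) := fun j => hCLP.1 G 3 j
  have h100 : g ![true, false, false] = true := hσ1
  have h101 : g ![true, false, true] = false := hσ2
  have hInt : Inter 2 g := (hPRP G 3 g hg).2.2.2.2.2.1 2 hI
  have h0 : ∀ y z : Bool, g ![false, y, z] = false := by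
    intro y z
    by_contra hc
    have hc' : g ![false, y, z] = true := by simpa using hc
    obtain ⟨i, hi⟩ := hInt ![![false, y, z], ![true, false, false]] (by
      intro j
      fin_cases j
      · exact hc'
      · exact h100)
    have hi0 := hi 0
    have hi1 := hi 1
    fin_cases i
    · simp at hi0
    · simp at hi1
    · simp at hi1
  clear_value g
  rcases hα : g ![true, true, false] with _ | _ <;> rcases hβ : g ![true, true, true] with _ | _
  · -- α = 0, β = 0
    refine NMI_diff hCLP G ?_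
    have hz : InCl G (fun _ : Fin 2 → Bool => false) := by
      have h := NMI_c3 hCLP G 2 g hg _ _ _ (v2 0) (v2 0) (v2 0)
      have e : (fun x : Fin 2 → Bool => g ![x 0, x 0, x 0]) = fun _ => false := by
        funext x
        cases x 0
        · exact h0 _ _
        · exact hβ
      rwa [e] at h
    have h := NMI_c3 hCLP G 2 g hg _ _ _ (v2 0) hz (v2 1)
    have e : (fun x : Fin 2 → Bool => g ![x 0, false, x 1]) = fun x => x 0 && !(x 1) := by
      funext x
      cases x 0 <;> cases x 1
      · simpa using h0 _ _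
      · simpa using h0 _ _
      · simpa using h100
      · simpa using h101
    rwa [e] at h
  · -- α = 0, β = 1
    have hA : InCl G fAnd := by
      have h := NMI_c3 hCLP G 2 g hg _ _ _ (v2 0) (v2 1) (v2 0)
      have e : (fun x : Fin 2 → Bool => g ![x 0, x 1, x 0]) = fAnd := by
        funext x
        unfold fAnd
        cases x 0 <;> cases x 1
        · simpa using h0 _ _
        · simpa using h0 _ _
        · simpa using h101
        · simpa using hβ
      rwa [e] at h
    refine ⟨hA, ?_⟩
    have hzy := NMI_c2 hCLP G 3 _ hA _ _ (v3 2) (v3 1)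
    have h := NMI_c3 hCLP G 3 g hg _ _ _ (v3 0) hzy (v3 2)
    have e : (fun x : Fin 3 → Bool => g ![x 0, fAnd ![x 2, x 1], x 2]) = fM := by
      funext x
      simp only [fM, fAnd, Matrix.cons_val_zero, Matrix.cons_val_one]
      cases x 0 <;> cases x 1 <;> cases x 2 <;> simp [h0, h100, h101, hα, hβ]
    rwa [e] at h
  · -- α = 1, β = 0
    refine NMI_diff hCLP G ?_
    have h := NMI_c3 hCLP G 2 g hg _ _ _ (v2 0) (v2 0) (v2 1)
    have e : (fun x : Fin 2 → Bool => g ![x 0, x 0, x 1]) = fun x => x 0 && !(x 1) := by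
      funext x
      cases x 0 <;> cases x 1 <;> simp [h0, h100, h101, hα, hβ]
    rwa [e] at h
  · -- α = 1, β = 1
    have hM : InCl G fM := by
      have h := NMI_c3 hCLP G 3 g hg _ _ _ (v3 0) (v3 1) (v3 2)
      have e : (fun x : Fin 3 → Bool => g ![x 0, x 1, x 2]) = fM := by
        funext x
        simp only [fM]
        cases x 0 <;> cases x 1 <;> cases x 2 <;> simp [h0, h100, h101, hα, hβ]
      rwa [e] at h
    refine ⟨?_, hM⟩
    have h := NMI_c3 hCLP G 2 fM hM _ _ _ (v2 0) (v2 1) (v2 0)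
    have e : (fun x : Fin 2 → Bool => fM ![x 0, x 1, x 0]) = fAnd := by
      funext x
      simp only [fM, fAnd]
      cases x 0 <;> cases x 1 <;> simp
    rwa [e] at h

end Pool.Agent.PB
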